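import Pool.Agent.TH695.BC.Theta

/-!
# The bit size of optimal clique/biclique covers of visibility graphs is of order `n log³ n`
-/

namespace Pool.Agent.Results.MP_bbf28f_lc.OrderOfGrowth

open Pool.Agent.TH695.BC

/-- `c n log³ n ≤ f n ≤ fAll n ≤ C n log³ n` for all large `n`, where `fAll n` is the maximum of
`beta` over all simple polygons with `n` vertices and `f n` is the maximum over those without
straight angles. -/
theorem result :
    ∃ c C : ℝ, 0 < c ∧ 0 < C ∧ ∃ n₀ : ℕ, ∀ n : ℕ, n₀ ≤ n →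
      c * (n * Real.log n ^ 3) ≤ (f n : ℝ) ∧ f n ≤ fAll n ∧
      (fAll n : ℝ) ≤ C * (n * Real.log n ^ 3) :=
  order_of_growth

end Pool.Agent.Results.MP_bbf28f_lc.OrderOfGrowth
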